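import Pool.Agent.H753R3.SC.Stmts2

set_option autoImplicit false

namespace Pool.Agent.H771R3.SCR

open Set

theorem chain_fin {P : Type} (c : Set (Set P)) (hc : IsChain (· ⊆ ·) c) (hne : c.Nonempty)
    (S : Set P) (hS : S.Finite) (h : ∀ y ∈ S, ∃ E ∈ c, y ∉ E) : ∃ E ∈ c, ∀ y ∈ S, y ∉ E := by
  induction S, hS using Set.Finite.induction_on with
  | empty => obtain ⟨E, hE⟩ := hne; exact ⟨E, hE, fun y hy => absurd hy (Set.notMem_empty y)⟩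
  | @insert a S _ _ ih =>
    obtain ⟨E1, hE1, h1⟩ := h a (Set.mem_insert _ _)
    obtain ⟨E2, hE2, h2⟩ := ih (fun y hy => h y (Set.mem_insert_of_mem _ hy))
    rcases hc.total hE1 hE2 with h12 | h12
    · refine ⟨E1, hE1, ?_⟩
      intro y hy
      rcases hy with rfl | hy
      · exact h1
      · exact fun h3 => h2 y hy (h12 h3)
    · refine ⟨E2, hE2, ?_⟩
      intro y hy
      rcases hy with rfl | hy
      · exact fun h3 => h1 (h12 h3)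
      · exact h2 y hy

theorem chain_inter {P : Type} (c : Set (Set P)) (hc : IsChain (· ⊆ ·) c) (hne : c.Nonempty)
    (S : Set P) (hS : S.Finite) (h : ∀ E ∈ c, ∃ y ∈ S, y ∈ E) : ∃ y ∈ S, y ∈ ⋂₀ c := by
  by_contra hcon
  push Not at hcon
  have h1 : ∀ y ∈ S, ∃ E ∈ c, y ∉ E := by
    intro y hy
    have := hcon y hy
    rw [Set.mem_sInter] at this
    push Not at this
    exact this
  obtain ⟨E, hE, h2⟩ := chain_fin c hc hne S hS h1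
  obtain ⟨y, hy, hyE⟩ := h E hE
  exact h2 y hy hyE

theorem taskR : Pool.Agent.H753R3.SC.TaskR := by
  intro P ι _ _ F hfin hne hdir
  let EE : Set (Set P) := {E | (∀ i, ∃ x ∈ F i, x ∈ E) ∧
    ∀ i j, (∀ x ∈ F j, ∃ y ∈ F i, y ≤ x) → ∀ x ∈ F j, x ∈ E → ∃ y ∈ F i, y ≤ x ∧ y ∈ E}
  have huniv : (Set.univ : Set P) ∈ EE := by
    refine ⟨fun i => ?_, fun i j hij x hx _ => ?_⟩
    · obtain ⟨x, hx⟩ := hne i
      exact ⟨x, hx, trivial⟩
    · obtain ⟨y, hy, hyx⟩ := hij x hx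
      exact ⟨y, hy, hyx, trivial⟩
  obtain ⟨E, -, hmin⟩ := zorn_superset_nonempty EE (by
    intro c hcS hc hcne
    refine ⟨⋂₀ c, ⟨fun i => ?_, fun i j hij x hx hxc => ?_⟩, fun s hs => Set.sInter_subset_of_mem hs⟩
    · exact chain_inter c hc hcne (F i) (hfin i) (fun E hE => (hcS hE).1 i)
    · obtain ⟨y, ⟨hy, hyx⟩, hyc⟩ := chain_inter c hc hcne {y | y ∈ F i ∧ y ≤ x}
        ((hfin i).subset (fun y hy => hy.1)) (fun E hE => by
          obtain ⟨y, hy, hyx, hyE⟩ := (hcS hE).2 i j hij x hx (Set.mem_sInter.mp hxc E hE)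
          exact ⟨y, ⟨hy, hyx⟩, hyE⟩)
      exact ⟨y, hy, hyx, hyc⟩) Set.univ huniv
  have hE : E ∈ EE := hmin.prop
  have claim : ∀ e ∈ E, ∃ j, ∀ x ∈ F j, x ∈ E → e ≤ x := by
    intro e he
    by_contra hcon
    push Not at hcon
    have hE' : (E \ {x | e ≤ x}) ∈ EE := by
      refine ⟨fun j => ?_, fun i j hij x hx hxE => ?_⟩
      · obtain ⟨x, hx, hxE, hex⟩ := hcon j
        exact ⟨x, hx, hxE, hex⟩
      · obtain ⟨y, hy, hyx, hyE⟩ := hE.2 i j hij x hx hxE.1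
        exact ⟨y, hy, hyx, hyE, fun h => hxE.2 (le_trans h hyx)⟩
    have := hmin.le_of_le hE' Set.sdiff_subset
    exact (this he).2 le_rfl
  refine ⟨{d | d ∈ E ∧ ∃ i, d ∈ F i}, ?_, ?_, ?_, ?_⟩
  · obtain ⟨i⟩ := (inferInstance : Nonempty ι)
    obtain ⟨x, hx, hxE⟩ := hE.1 i
    exact ⟨x, hxE, i, hx⟩
  · rintro e ⟨he, -⟩ e' ⟨he', -⟩
    obtain ⟨j, hj⟩ := claim e he
    obtain ⟨j', hj'⟩ := claim e' he'
    obtain ⟨k, hk⟩ := hdir j j'
    obtain ⟨x, hx, hxE⟩ := hE.1 k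
    obtain ⟨y, hy, hyx, hyE⟩ := hE.2 j k (fun x hx => (hk x hx).1) x hx hxE
    obtain ⟨y', hy', hyx', hyE'⟩ := hE.2 j' k (fun x hx => (hk x hx).2) x hx hxE
    exact ⟨x, ⟨hxE, k, hx⟩, le_trans (hj y hy hyE) hyx, le_trans (hj' y' hy' hyE') hyx'⟩
  · rintro d ⟨-, i, hi⟩
    exact ⟨i, hi⟩
  · intro i
    obtain ⟨x, hx, hxE⟩ := hE.1 i
    exact ⟨x, ⟨hxE, i, hx⟩, hx⟩

end Pool.Agent.H771R3.SCR
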